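import Mathlib
import Pool.Agent.W223.AK.Basic

/-!
# AK-TW: two-variable energy
-/

set_option autoImplicit false
set_option linter.unusedSectionVars false

namespace Pool.Agent.W249.AK

open NumberField IsDedekindDomain Finset Pool.Agent.H691R3 Pool.Agent.W223.AK

theorem card_fiber_le {α β : Type*} [DecidableEq β] (s : Finset α) (f : α → β) (N B : ℝ)
    (hB0 : 0 ≤ B) (hN : ((s.image f).card : ℝ) ≤ N)
    (hB : ∀ b ∈ s.image f, ((s.filter (fun x => f x = b)).card : ℝ) ≤ B) :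
    (s.card : ℝ) ≤ N * B := by
  have h1 : s.card = ∑ b ∈ s.image f, (s.filter (fun x => f x = b)).card :=
    Finset.card_eq_sum_card_image f s
  calc (s.card : ℝ) = ∑ b ∈ s.image f, ((s.filter (fun x => f x = b)).card : ℝ) := by
        rw [h1]; push_cast; rfl
    _ ≤ ∑ _b ∈ s.image f, B := Finset.sum_le_sum hB
    _ = (s.image f).card * B := by rw [Finset.sum_const, nsmul_eq_mul]
    _ ≤ N * B := mul_le_mul_of_nonneg_right hN hB0

variable {K : Type} [Field K] [NumberField K]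

theorem gen_ne' {w : Pr K → K} (hne : ∀ v, w v ≠ 0) (a : Idl K) : gen w a ≠ 0 :=
  Finset.prod_ne_zero_iff.mpr fun v _ => pow_ne_zero _ (hne v)

/-- the statement of `P1` for one `l` with its constant -/
def P1At (S : Finset (Pr K)) (w : Pr K → K) (l : ℕ) (ε A D : ℝ) : Prop :=
    ∀ (X b : ℝ) (f : Idl K) (V : Finset (Pl K)) (σ : Pl K → ℝ) (y₀ : K)
      (Q : Finset (Idl K × Idl K)),
    0 ≤ b → b ≤ X → OffS S f → len f ≤ X → V ⊆ Spl S → (∀ v ∈ V, 0 ≤ σ v) → y₀ ≠ 0 →
    (∀ t ∈ Q, OffS S t.1 ∧ OffS S t.2 ∧ Cop t.1 f ∧ Cop t.2 f ∧ Cop t.1 t.2 ∧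
      len t.1 ≤ b ∧ len t.2 ≤ b ∧ Cl f V σ A (y₀ * (gen w t.1 / gen w t.2) ^ l)) →
    (Q.card : ℝ) ≤ D * Real.exp (ε * X) * (1 + Real.exp (2 * b - lenM f V σ))

def CNTAt (K : Type) [Field K] [NumberField K] (ε D : ℝ) : Prop :=
  ∀ (X c : ℝ) (E : Finset (Idl K)), 0 ≤ X →
    (∀ a ∈ E, rl a ≤ c ∧ len a ≤ X) → (E.card : ℝ) ≤ D * Real.exp (c + ε * X)

theorem card_pairs {ε D₂ : ℝ} (hC : CNTAt K ε D₂) {X u : ℝ} (hX : 0 ≤ X)
    (huX : u ≤ X) (E : Finset (Idl K × Idl K)) (hE : ∀ t ∈ E, len t.1 ≤ u ∧ len t.2 ≤ u) :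
    (E.card : ℝ) ≤ (D₂ * Real.exp (u + ε * X)) ^ 2 := by
  classical
  have h1 : E.card ≤ (E.image Prod.fst).card * (E.image Prod.snd).card := by
    rw [← Finset.card_product]
    exact Finset.card_le_card Finset.subset_product
  have hA : ((E.image Prod.fst).card : ℝ) ≤ D₂ * Real.exp (u + ε * X) := by
    refine hC X u _ hX fun a ha => ?_
    obtain ⟨t, ht, rfl⟩ := Finset.mem_image.mp ha
    exact ⟨(rl_le_len _).trans (hE t ht).1, (hE t ht).1.trans huX⟩
  have hB : ((E.image Prod.snd).card : ℝ) ≤ D₂ * Real.exp (u + ε * X) := by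
    refine hC X u _ hX fun a ha => ?_
    obtain ⟨t, ht, rfl⟩ := Finset.mem_image.mp ha
    exact ⟨(rl_le_len _).trans (hE t ht).2, (hE t ht).2.trans huX⟩
  calc (E.card : ℝ) ≤ ((E.image Prod.fst).card : ℝ) * (E.image Prod.snd).card := by
        exact_mod_cast h1
    _ ≤ (D₂ * Real.exp (u + ε * X)) * (D₂ * Real.exp (u + ε * X)) :=
        mul_le_mul hA hB (Nat.cast_nonneg _) ((Nat.cast_nonneg _).trans hA)
    _ = _ := by ring

/-- one half: choose the first pair freely, bound the second by `P1` -/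
theorem half {S : Finset (Pr K)} {w : Pr K → K} (hne : ∀ v, w v ≠ 0) {k l : ℕ}
    {ε A D₁ D₂ : ℝ} (hD₁ : 0 ≤ D₁) (hC : CNTAt K ε D₂) (hP : P1At S w l ε A D₁)
    {X u v : ℝ} (hX : 0 ≤ X) (huX : u ≤ X) (hv0 : 0 ≤ v) (hvX : v ≤ X)
    (f : Idl K) (V : Finset (Pl K)) (σ : Pl K → ℝ) (y₀ : K)
    (hf : OffS S f) (hfX : len f ≤ X) (hV : V ⊆ Spl S) (hσ : ∀ v ∈ V, 0 ≤ σ v) (hy : y₀ ≠ 0)
    (R : Finset ((Idl K × Idl K) × (Idl K × Idl K)))
    (hR : ∀ t ∈ R, (len t.1.1 ≤ u ∧ len t.1.2 ≤ u) ∧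
      (OffS S t.2.1 ∧ OffS S t.2.2 ∧ Cop t.2.1 f ∧ Cop t.2.2 f ∧ Cop t.2.1 t.2.2 ∧
        len t.2.1 ≤ v ∧ len t.2.2 ≤ v) ∧
      Cl f V σ A (y₀ * (gen w t.1.1 / gen w t.1.2) ^ k * (gen w t.2.1 / gen w t.2.2) ^ l)) :
    (R.card : ℝ) ≤ (D₂ * Real.exp (u + ε * X)) ^ 2 *
      (D₁ * Real.exp (ε * X) * (1 + Real.exp (2 * v - lenM f V σ))) := by
  classical
  refine card_fiber_le R Prod.fst _ _ (by positivity) ?_ ?_
  · refine card_pairs hC hX huX _ fun t ht => ?_
    obtain ⟨r, hr, rfl⟩ := Finset.mem_image.mp ht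
    exact (hR r hr).1
  · intro p hp
    have hinj : Set.InjOn (fun t : (Idl K × Idl K) × (Idl K × Idl K) => t.2)
        (R.filter (fun x => Prod.fst x = p) : Set ((Idl K × Idl K) × (Idl K × Idl K))) := by
      intro x hx y hy' hxy
      have h1 := (Finset.mem_filter.mp (Finset.mem_coe.mp hx)).2
      have h2 := (Finset.mem_filter.mp (Finset.mem_coe.mp hy')).2
      exact Prod.ext (h1.trans h2.symm) hxy
    rw [← Finset.card_image_of_injOn hinj]
    refine hP X v f V σ (y₀ * (gen w p.1 / gen w p.2) ^ k) _ hv0 hvX hf hfX hV hσ ?_ ?_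
    · exact mul_ne_zero hy (pow_ne_zero _ (div_ne_zero (gen_ne' hne _) (gen_ne' hne _)))
    · intro t ht
      obtain ⟨r, hr, rfl⟩ := Finset.mem_image.mp ht
      obtain ⟨hrR, hrp⟩ := Finset.mem_filter.mp hr
      obtain ⟨_, ⟨h1, h2, h3, h4, h5, h6, h7⟩, h8⟩ := hR r hrR
      rw [hrp] at h8
      exact ⟨h1, h2, h3, h4, h5, h6, h7, h8⟩

/-- reduced pair -/
noncomputable def redu (t : Idl K × Idl K) : Idl K × Idl K := (t.1 - t.1 ⊓ t.2, t.2 - t.1 ⊓ t.2)

theorem redu_add_fst (t : Idl K × Idl K) : (redu t).1 + t.1 ⊓ t.2 = t.1 :=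
  tsub_add_cancel_of_le inf_le_left

theorem redu_add_snd (t : Idl K × Idl K) : (redu t).2 + t.1 ⊓ t.2 = t.2 :=
  tsub_add_cancel_of_le inf_le_right

theorem redu_le_fst (t : Idl K × Idl K) : (redu t).1 ≤ t.1 := tsub_le_self

theorem redu_le_snd (t : Idl K × Idl K) : (redu t).2 ≤ t.2 := tsub_le_self

theorem redu_cop (t : Idl K × Idl K) : Cop (redu t).1 (redu t).2 := by
  intro v
  unfold redu
  simp only [Finsupp.tsub_apply, Finsupp.inf_apply]
  rcases le_total (t.1 v) (t.2 v) with h | h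
  · left; rw [inf_eq_left.mpr h]; omega
  · right; rw [inf_eq_right.mpr h]; omega

theorem redu_gen {w : Pr K → K} (hne : ∀ v, w v ≠ 0) (t : Idl K × Idl K) :
    gen w t.1 / gen w t.2 = gen w (redu t).1 / gen w (redu t).2 := by
  have h1 : gen w t.1 = gen w (redu t).1 * gen w (t.1 ⊓ t.2) := by
    rw [← gen_add, redu_add_fst]
  have h2 : gen w t.2 = gen w (redu t).2 * gen w (t.1 ⊓ t.2) := by
    rw [← gen_add, redu_add_snd]
  rw [h1, h2, mul_div_mul_right _ _ (gen_ne' hne _)]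

theorem redu_len_fst (t : Idl K × Idl K) : len (redu t).1 = len t.1 - len (t.1 ⊓ t.2) := by
  have := congrArg len (redu_add_fst t)
  rw [len_add] at this
  linarith

theorem redu_len_snd (t : Idl K × Idl K) : len (redu t).2 = len t.2 - len (t.1 ⊓ t.2) := by
  have := congrArg len (redu_add_snd t)
  rw [len_add] at this
  linarith

theorem redu_inj {t t' : Idl K × Idl K} (h : redu t = redu t') (hd : t.1 ⊓ t.2 = t'.1 ⊓ t'.2) :
    t = t' := by
  refine Prod.ext ?_ ?_
  · rw [← redu_add_fst t, ← redu_add_fst t', h, hd]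
  · rw [← redu_add_snd t, ← redu_add_snd t', h, hd]

theorem combine {M u v Λ N : ℝ} (hM : 0 ≤ M)
    (h1 : N ≤ Real.exp (2 * u) * (M * (1 + Real.exp (2 * v - Λ))))
    (h2 : N ≤ Real.exp (2 * v) * (M * (1 + Real.exp (2 * u - Λ)))) :
    N ≤ M * (Real.exp (u + v) * (1 + Real.exp (u + v - Λ))) := by
  have e1 : Real.exp (u + v) * Real.exp (u + v - Λ) = Real.exp (2 * u + 2 * v - Λ) := by
    rw [← Real.exp_add]; ring_nf
  rcases le_total u v with huv | huv
  · have e2 : Real.exp (2 * u) * Real.exp (2 * v - Λ) = Real.exp (2 * u + 2 * v - Λ) := by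
      rw [← Real.exp_add]; ring_nf
    have e3 : Real.exp (2 * u) ≤ Real.exp (u + v) := Real.exp_le_exp.mpr (by linarith)
    calc N ≤ M * (Real.exp (2 * u) + Real.exp (2 * u) * Real.exp (2 * v - Λ)) := by
          refine h1.trans (le_of_eq ?_); ring
      _ ≤ M * (Real.exp (u + v) + Real.exp (u + v) * Real.exp (u + v - Λ)) := by
          refine mul_le_mul_of_nonneg_left ?_ hM
          rw [e1, e2]; linarith
      _ = _ := by ring
  · have e2 : Real.exp (2 * v) * Real.exp (2 * u - Λ) = Real.exp (2 * u + 2 * v - Λ) := by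
      rw [← Real.exp_add]; ring_nf
    have e3 : Real.exp (2 * v) ≤ Real.exp (u + v) := Real.exp_le_exp.mpr (by linarith)
    calc N ≤ M * (Real.exp (2 * v) + Real.exp (2 * v) * Real.exp (2 * u - Λ)) := by
          refine h2.trans (le_of_eq ?_); ring
      _ ≤ M * (Real.exp (u + v) + Real.exp (u + v) * Real.exp (u + v - Λ)) := by
          refine mul_le_mul_of_nonneg_left ?_ hM
          rw [e1, e2]; linarith
      _ = _ := by ring

theorem tw {S : Finset (Pr K)} {w : Pr K → K} (hP : StmtP1 S w) (hC : StmtCNT K) (hG : StmtGCD K)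
    (hne : ∀ v, w v ≠ 0) : StmtTW S w := by
  classical
  intro k l hk hl hSk hSl ε A hε hA
  have hε' : 0 < ε / 5 := by positivity
  obtain ⟨Dl, hDl, hPl⟩ := hP l hl hSl (ε / 5) A hε' hA
  obtain ⟨Dk, hDk, hPk⟩ := hP k hk hSk (ε / 5) A hε' hA
  obtain ⟨D₂, hD₂, hC₂⟩ := hC (ε / 5) hε'
  obtain ⟨D₃, hD₃, hG₃⟩ := hG (ε / 5) hε'
  set ε₁ := ε / 5 with hε₁
  refine ⟨D₃ ^ 2 * (D₂ ^ 2 * (Dk + Dl)), by positivity, ?_⟩
  intro X a b f V σ y₀ Q ha haX hb hbX hf hfX hV hσ hy hQ
  have hX : 0 ≤ X := ha.trans haX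
  -- the two infima
  set g : ((Idl K × Idl K) × (Idl K × Idl K)) → Idl K × Idl K :=
    fun t => (t.1.1 ⊓ t.1.2, t.2.1 ⊓ t.2.2) with hg
  set M : ℝ := D₂ ^ 2 * (Dk + Dl) * Real.exp (3 * ε₁ * X) with hM
  have hM0 : 0 ≤ M := by positivity
  set Λ := lenM f V σ with hΛ
  have hfib : ∀ p ∈ Q.image g, ((Q.filter (fun t => g t = p)).card : ℝ) ≤
      M * (Real.exp ((a - len p.1) + (b - len p.2)) *
        (1 + Real.exp ((a - len p.1) + (b - len p.2) - Λ))) := by
    intro p hp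
    obtain ⟨t₀, ht₀, ht₀p⟩ := Finset.mem_image.mp hp
    have hda : len p.1 ≤ a := by
      rw [← ht₀p]
      exact (len_mono inf_le_left).trans (hQ t₀ ht₀).1.2.2
    have hdb : len p.2 ≤ b := by
      rw [← ht₀p]
      exact (len_mono inf_le_left).trans (hQ t₀ ht₀).2.2.1.2.2
    have hp1 := len_nonneg p.1
    have hp2 := len_nonneg p.2
    -- the reduced set
    have key : ∀ t ∈ Q.filter (fun t => g t = p),
        (OffS S (redu t.1).1 ∧ OffS S (redu t.1).2 ∧ Cop (redu t.1).1 f ∧ Cop (redu t.1).2 f ∧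
          Cop (redu t.1).1 (redu t.1).2 ∧ len (redu t.1).1 ≤ a - len p.1 ∧
          len (redu t.1).2 ≤ a - len p.1) ∧
        (OffS S (redu t.2).1 ∧ OffS S (redu t.2).2 ∧ Cop (redu t.2).1 f ∧ Cop (redu t.2).2 f ∧
          Cop (redu t.2).1 (redu t.2).2 ∧ len (redu t.2).1 ≤ b - len p.2 ∧
          len (redu t.2).2 ≤ b - len p.2) ∧
        Cl f V σ A (y₀ * (gen w (redu t.1).1 / gen w (redu t.1).2) ^ k *
          (gen w (redu t.2).1 / gen w (redu t.2).2) ^ l) := by
      intro t ht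
      obtain ⟨htQ, htp⟩ := Finset.mem_filter.mp ht
      obtain ⟨⟨a1, a2, a3⟩, ⟨b1, b2, b3⟩, ⟨c1, c2, c3⟩, ⟨d1, d2, d3⟩, hcl⟩ := hQ t htQ
      have e1 : t.1.1 ⊓ t.1.2 = p.1 := by rw [← htp]
      have e2 : t.2.1 ⊓ t.2.2 = p.2 := by rw [← htp]
      rw [redu_gen hne, redu_gen hne t.2] at hcl
      refine ⟨⟨a1.mono (redu_le_fst _), b1.mono (redu_le_snd _), a2.mono_left (redu_le_fst _),
        b2.mono_left (redu_le_snd _), redu_cop _, ?_, ?_⟩,
        ⟨c1.mono (redu_le_fst _), d1.mono (redu_le_snd _), c2.mono_left (redu_le_fst _),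
        d2.mono_left (redu_le_snd _), redu_cop _, ?_, ?_⟩, hcl⟩
      · rw [redu_len_fst, e1]; linarith
      · rw [redu_len_snd, e1]; linarith
      · rw [redu_len_fst, e2]; linarith
      · rw [redu_len_snd, e2]; linarith
    have inj : ∀ t ∈ Q.filter (fun t => g t = p), ∀ t' ∈ Q.filter (fun t => g t = p),
        redu t.1 = redu t'.1 → redu t.2 = redu t'.2 → t = t' := by
      intro t ht t' ht' h1 h2
      have htp := (Finset.mem_filter.mp ht).2
      have htp' := (Finset.mem_filter.mp ht').2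
      have e := htp.trans htp'.symm
      exact Prod.ext (redu_inj h1 (congrArg Prod.fst e)) (redu_inj h2 (congrArg Prod.snd e))
    -- first bound
    have B1 : ((Q.filter (fun t => g t = p)).card : ℝ) ≤
        (D₂ * Real.exp ((a - len p.1) + ε₁ * X)) ^ 2 *
          (Dl * Real.exp (ε₁ * X) * (1 + Real.exp (2 * (b - len p.2) - Λ))) := by
      have hinj : Set.InjOn
          (fun t : (Idl K × Idl K) × (Idl K × Idl K) => (redu t.1, redu t.2))
          (Q.filter (fun t => g t = p) : Set _) := by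
        intro t ht t' ht' h
        exact inj t (Finset.mem_coe.mp ht) t' (Finset.mem_coe.mp ht')
          (congrArg Prod.fst h) (congrArg Prod.snd h)
      rw [← Finset.card_image_of_injOn hinj]
      refine half (k := k) hne hDl.le hC₂ hPl hX (by linarith) (by linarith) (by linarith)
        f V σ y₀ hf hfX hV hσ hy _ ?_
      intro r hr
      obtain ⟨t, ht, rfl⟩ := Finset.mem_image.mp hr
      obtain ⟨h1, h2, h3⟩ := key t ht
      exact ⟨⟨h1.2.2.2.2.2.1, h1.2.2.2.2.2.2⟩, h2, h3⟩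
    have B2 : ((Q.filter (fun t => g t = p)).card : ℝ) ≤
        (D₂ * Real.exp ((b - len p.2) + ε₁ * X)) ^ 2 *
          (Dk * Real.exp (ε₁ * X) * (1 + Real.exp (2 * (a - len p.1) - Λ))) := by
      have hinj : Set.InjOn
          (fun t : (Idl K × Idl K) × (Idl K × Idl K) => (redu t.2, redu t.1))
          (Q.filter (fun t => g t = p) : Set _) := by
        intro t ht t' ht' h
        exact inj t (Finset.mem_coe.mp ht) t' (Finset.mem_coe.mp ht')
          (congrArg Prod.snd h) (congrArg Prod.fst h)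
      rw [← Finset.card_image_of_injOn hinj]
      refine half (k := l) hne hDk.le hC₂ hPk hX (by linarith) (by linarith) (by linarith)
        f V σ y₀ hf hfX hV hσ hy _ ?_
      intro r hr
      obtain ⟨t, ht, rfl⟩ := Finset.mem_image.mp hr
      obtain ⟨h1, h2, h3⟩ := key t ht
      refine ⟨⟨h2.2.2.2.2.2.1, h2.2.2.2.2.2.2⟩, h1, ?_⟩
      have e : y₀ * (gen w (redu t.2).1 / gen w (redu t.2).2) ^ l *
          (gen w (redu t.1).1 / gen w (redu t.1).2) ^ k =
          y₀ * (gen w (redu t.1).1 / gen w (redu t.1).2) ^ k *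
          (gen w (redu t.2).1 / gen w (redu t.2).2) ^ l := by ring
      show Cl f V σ A (y₀ * (gen w (redu t.2).1 / gen w (redu t.2).2) ^ l *
          (gen w (redu t.1).1 / gen w (redu t.1).2) ^ k)
      rw [e]; exact h3
    refine combine hM0 ?_ ?_
    · refine B1.trans ?_
      have e1 : (D₂ * Real.exp ((a - len p.1) + ε₁ * X)) ^ 2 *
          (Dl * Real.exp (ε₁ * X) * (1 + Real.exp (2 * (b - len p.2) - Λ))) =
          Real.exp (2 * (a - len p.1)) * ((D₂ ^ 2 * Dl * Real.exp (3 * ε₁ * X)) *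
            (1 + Real.exp (2 * (b - len p.2) - Λ))) := by
        have e2 : Real.exp ((a - len p.1) + ε₁ * X) ^ 2 * Real.exp (ε₁ * X) =
            Real.exp (2 * (a - len p.1)) * Real.exp (3 * ε₁ * X) := by
          rw [← Real.exp_nat_mul, ← Real.exp_add, ← Real.exp_add]
          congr 1; push_cast; ring
        calc _ = (Real.exp ((a - len p.1) + ε₁ * X) ^ 2 * Real.exp (ε₁ * X)) *
            (D₂ ^ 2 * Dl * (1 + Real.exp (2 * (b - len p.2) - Λ))) := by ring
          _ = _ := by rw [e2]; ring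
      rw [e1]
      refine mul_le_mul_of_nonneg_left ?_ (Real.exp_pos _).le
      refine mul_le_mul_of_nonneg_right ?_ (by positivity)
      rw [hM]
      refine mul_le_mul_of_nonneg_right ?_ (Real.exp_pos _).le
      refine mul_le_mul_of_nonneg_left (by linarith) (by positivity)
    · refine B2.trans ?_
      have e1 : (D₂ * Real.exp ((b - len p.2) + ε₁ * X)) ^ 2 *
          (Dk * Real.exp (ε₁ * X) * (1 + Real.exp (2 * (a - len p.1) - Λ))) =
          Real.exp (2 * (b - len p.2)) * ((D₂ ^ 2 * Dk * Real.exp (3 * ε₁ * X)) *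
            (1 + Real.exp (2 * (a - len p.1) - Λ))) := by
        have e2 : Real.exp ((b - len p.2) + ε₁ * X) ^ 2 * Real.exp (ε₁ * X) =
            Real.exp (2 * (b - len p.2)) * Real.exp (3 * ε₁ * X) := by
          rw [← Real.exp_nat_mul, ← Real.exp_add, ← Real.exp_add]
          congr 1; push_cast; ring
        calc _ = (Real.exp ((b - len p.2) + ε₁ * X) ^ 2 * Real.exp (ε₁ * X)) *
            (D₂ ^ 2 * Dk * (1 + Real.exp (2 * (a - len p.1) - Λ))) := by ring
          _ = _ := by rw [e2]; ring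
      rw [e1]
      refine mul_le_mul_of_nonneg_left ?_ (Real.exp_pos _).le
      refine mul_le_mul_of_nonneg_right ?_ (by positivity)
      rw [hM]
      refine mul_le_mul_of_nonneg_right ?_ (Real.exp_pos _).le
      refine mul_le_mul_of_nonneg_left (by linarith) (by positivity)
  -- sum over the fibres
  have hfib2 : ∀ p ∈ Q.image g, ((Q.filter (fun t => g t = p)).card : ℝ) ≤
      (M * (Real.exp (a + b) * (1 + Real.exp (a + b - Λ)))) *
        (Real.exp (-len p.1) * Real.exp (-len p.2)) := by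
    intro p hp
    refine (hfib p hp).trans ?_
    have hp1 := len_nonneg p.1
    have hp2 := len_nonneg p.2
    have e1 : Real.exp ((a - len p.1) + (b - len p.2)) =
        Real.exp (a + b) * (Real.exp (-len p.1) * Real.exp (-len p.2)) := by
      rw [← Real.exp_add, ← Real.exp_add]; congr 1; ring
    have e2 : Real.exp ((a - len p.1) + (b - len p.2) - Λ) ≤ Real.exp (a + b - Λ) :=
      Real.exp_le_exp.mpr (by linarith)
    rw [e1]
    have h3 : 0 ≤ M * (Real.exp (a + b) * (Real.exp (-len p.1) * Real.exp (-len p.2))) := by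
      positivity
    calc M * (Real.exp (a + b) * (Real.exp (-len p.1) * Real.exp (-len p.2)) *
          (1 + Real.exp ((a - len p.1) + (b - len p.2) - Λ)))
        = M * (Real.exp (a + b) * (Real.exp (-len p.1) * Real.exp (-len p.2))) *
          (1 + Real.exp ((a - len p.1) + (b - len p.2) - Λ)) := by ring
      _ ≤ M * (Real.exp (a + b) * (Real.exp (-len p.1) * Real.exp (-len p.2))) *
          (1 + Real.exp (a + b - Λ)) := mul_le_mul_of_nonneg_left (by linarith) h3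
      _ = _ := by ring
  have hsum : ∑ p ∈ Q.image g, Real.exp (-len p.1) * Real.exp (-len p.2) ≤
      (D₃ * Real.exp (ε₁ * X)) ^ 2 := by
    have hsub : Q.image g ⊆ (Q.image fun t => t.1.1 ⊓ t.1.2) ×ˢ (Q.image fun t => t.2.1 ⊓ t.2.2) := by
      intro p hp
      obtain ⟨t, ht, rfl⟩ := Finset.mem_image.mp hp
      exact Finset.mem_product.mpr ⟨Finset.mem_image_of_mem _ ht, Finset.mem_image_of_mem _ ht⟩
    have h1 : ∑ p ∈ Q.image g, Real.exp (-len p.1) * Real.exp (-len p.2) ≤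
        ∑ p ∈ (Q.image fun t => t.1.1 ⊓ t.1.2) ×ˢ (Q.image fun t => t.2.1 ⊓ t.2.2),
          Real.exp (-len p.1) * Real.exp (-len p.2) :=
      Finset.sum_le_sum_of_subset_of_nonneg hsub fun _ _ _ => by positivity
    rw [Finset.sum_product] at h1
    have h2 : ∑ x ∈ Q.image (fun t => t.1.1 ⊓ t.1.2), ∑ y ∈ Q.image (fun t => t.2.1 ⊓ t.2.2),
        Real.exp (-len x) * Real.exp (-len y) =
        (∑ x ∈ Q.image (fun t => t.1.1 ⊓ t.1.2), Real.exp (-len x)) *
        (∑ y ∈ Q.image (fun t => t.2.1 ⊓ t.2.2), Real.exp (-len y)) :=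
      (Finset.sum_mul_sum _ _ _ _).symm
    have h3 : ∑ x ∈ Q.image (fun t => t.1.1 ⊓ t.1.2), Real.exp (-len x) ≤
        D₃ * Real.exp (ε₁ * X) := by
      refine hG₃ X _ hX fun x hx => ?_
      obtain ⟨t, ht, rfl⟩ := Finset.mem_image.mp hx
      exact ((len_mono inf_le_left).trans (hQ t ht).1.2.2).trans haX
    have h4 : ∑ y ∈ Q.image (fun t => t.2.1 ⊓ t.2.2), Real.exp (-len y) ≤
        D₃ * Real.exp (ε₁ * X) := by
      refine hG₃ X _ hX fun x hx => ?_
      obtain ⟨t, ht, rfl⟩ := Finset.mem_image.mp hx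
      exact ((len_mono inf_le_left).trans (hQ t ht).2.2.1.2.2).trans hbX
    refine h1.trans ?_
    show ∑ x ∈ Q.image (fun t => t.1.1 ⊓ t.1.2), ∑ y ∈ Q.image (fun t => t.2.1 ⊓ t.2.2),
        Real.exp (-len x) * Real.exp (-len y) ≤ _
    rw [h2, sq]
    exact mul_le_mul h3 h4 (Finset.sum_nonneg fun _ _ => (Real.exp_pos _).le) (by positivity)
  have h1 : Q.card = ∑ p ∈ Q.image g, (Q.filter (fun t => g t = p)).card :=
    Finset.card_eq_sum_card_image g Q
  calc (Q.card : ℝ) = ∑ p ∈ Q.image g, ((Q.filter (fun t => g t = p)).card : ℝ) := by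
        rw [h1]; push_cast; rfl
    _ ≤ ∑ p ∈ Q.image g, (M * (Real.exp (a + b) * (1 + Real.exp (a + b - Λ)))) *
        (Real.exp (-len p.1) * Real.exp (-len p.2)) := Finset.sum_le_sum hfib2
    _ = (M * (Real.exp (a + b) * (1 + Real.exp (a + b - Λ)))) *
        ∑ p ∈ Q.image g, (Real.exp (-len p.1) * Real.exp (-len p.2)) := by
        rw [Finset.mul_sum]
    _ ≤ (M * (Real.exp (a + b) * (1 + Real.exp (a + b - Λ)))) * (D₃ * Real.exp (ε₁ * X)) ^ 2 :=
        mul_le_mul_of_nonneg_left hsum (by positivity)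
    _ = D₃ ^ 2 * (D₂ ^ 2 * (Dk + Dl)) * (Real.exp (3 * ε₁ * X) * Real.exp (ε₁ * X) ^ 2) *
        (Real.exp (a + b) * (1 + Real.exp (a + b - Λ))) := by rw [hM]; ring
    _ = D₃ ^ 2 * (D₂ ^ 2 * (Dk + Dl)) * Real.exp (ε * X) *
        (Real.exp (a + b) * (1 + Real.exp (a + b - Λ))) := by
        have e : Real.exp (3 * ε₁ * X) * Real.exp (ε₁ * X) ^ 2 = Real.exp (ε * X) := by
          rw [← Real.exp_nat_mul, ← Real.exp_add]
          congr 1; push_cast; rw [hε₁]; ring
        rw [e]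

end Pool.Agent.W249.AK
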